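import Pool.Agent.R526.LM.Fin

set_option autoImplicit false

/-!
# Cramér's conjecture fails for locally moved primes, at every polylogarithmic scale

Author: helper526.

Every large prime `p` stays where it is with probability `1 - δ`, and with probability `δ` it is moved to a uniformly
random integer of `(p, p + W(p)]`, where `W(p) ~ (log p)^t` with a fixed `t > 2`. So the perturbation is local and,
if `δ` is small, rare; at the scales above `(log x)^t` the new set `𝒮` has the distribution of the primes.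

With Buchstab's function `ω`, for every `0 < θ < 1`, almost surely, for every `ε > 0` and all large `x`, there are
consecutive elements `a < b ≤ x` of `𝒮` with
`b - a ≥ (1 / (e^γ (ω(2/θ) log(1/δ) + ω(t/θ) δ)) - ε) (log x)²`.

In particular the largest gap is `≫ (log x)²` for every `δ > 0` and every `t > 2`. For every `t > 2` and all `δ`
near `1` (for instance `δ = 1`: all primes are moved) the constant is larger than `1` for some `θ`, since
`ω(u) < e^(-γ)` for arbitrarily large `u`: the analogue of `L = 1` fails, however large the power `t` of the logarithm is.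
(If the primes are moved by `p / (log p)^A` instead, the analogue of `L = 1` holds for `δ = 1`; see
`MP_3bc45c_nt.RandomlyMovedPrimes`.)

Proof. Rows of Maier's matrix over the modulus `∏ p ≤ (log X)^θ / 4`: there are `X^(1 - o(1))` integers `n ≤ X` for
which there are simultaneously (in the mean) few primes in `(n, n + c (log n)²]` and in `(n - (log n)^t, n]`; the
relative theorem of Bombieri and Vinogradov of the starting files and Buchstab's asymptotic formula, proved by
helper529 (`R529/BU`). The window `(n, n + c (log n)²]` is avoided by the moved primes with probability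
at least `n^(-1 + o(1))` if `c` is less than the constant; the events are negatively correlated; second moments.
-/

open MeasureTheory ProbabilityTheory Filter Topology

namespace Pool.Agent.Results.MP_b0c12c_nt.LocallyMovedPrimes

/-- `ω` is Buchstab's function: it is continuous on `[1, ∞)`, `u ω(u) = 1` for `1 ≤ u ≤ 2` and
`u ω(u) = 1 + ∫_1^(u-1) ω` for `u ≥ 2` (these conditions determine `ω` on `[1, ∞)`). -/
def IsBuchstab (ω : ℝ → ℝ) : Prop :=
  ContinuousOn ω (Set.Ici 1) ∧ (∀ u, 1 ≤ u → u ≤ 2 → u * ω u = 1) ∧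
    ∀ u, 2 ≤ u → u * ω u = 1 + ∫ s in (1 : ℝ)..(u - 1), ω s

/-- The constant `1 / (e^γ (ω(2/θ) log(1/δ) + ω(t/θ) δ))`. -/
noncomputable def const (ω : ℝ → ℝ) (t θ δ : ℝ) : ℝ :=
  1 / (Real.exp Real.eulerMascheroniConstant * (ω (2 / θ) * Real.log (1 / δ) + ω (t / θ) * δ))

/-- There is a function `ω` satisfying the conditions of Buchstab's function with the following properties, for
every `t > 2`.
(1) Let `W p ~ (log p)^t`, `0 < δ ≤ 1`, and let `ξ p` be independent random variables; for all large primes `p` let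
`ξ p = p` with probability `1 - δ` and `ξ p = p + j` with probability `δ / W p` for each `1 ≤ j ≤ W p`. Put
`𝒮 = {ξ p : p prime}`. Then for every `0 < θ < 1`, almost surely, for every `ε > 0` and all large `x` there are
consecutive elements `a < b ≤ x` of `𝒮` with `b - a ≥ (const ω t θ δ - ε) (log x)²`.
(2) There are `0 < θ < 1` and `δ₀ < 1` such that `const ω t θ δ > 1` for all `δ₀ < δ ≤ 1`. -/
theorem result : ∃ ω : ℝ → ℝ, IsBuchstab ω ∧ ∀ t : ℝ, 2 < t →
    (∀ (W : ℕ → ℕ), Tendsto (fun p : ℕ => (W p : ℝ) / (Real.log p) ^ t) atTop (𝓝 1) →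
      ∀ (δ : ℝ), 0 < δ → δ ≤ 1 →
      ∀ (Ω : Type) [MeasurableSpace Ω] (μ : Measure Ω) [IsProbabilityMeasure μ]
        (ξ : ℕ → Ω → ℕ), (∀ p, Measurable (ξ p)) → iIndepFun ξ μ → ∀ p₀ : ℕ,
        (∀ p : ℕ, p.Prime → p₀ ≤ p → μ.real {w | ξ p w = p} = 1 - δ) →
        (∀ p : ℕ, p.Prime → p₀ ≤ p → ∀ j : ℕ, 1 ≤ j → j ≤ W p → μ.real {w | ξ p w = p + j} = δ / W p) →
        ∀ θ : ℝ, 0 < θ → θ < 1 →
        ∀ᵐ w ∂μ, ∀ ε : ℝ, 0 < ε → ∀ᶠ x : ℝ in atTop, ∃ a b : ℕ,
          (∃ p : ℕ, p.Prime ∧ ξ p w = a) ∧ (∃ p : ℕ, p.Prime ∧ ξ p w = b) ∧ a < b ∧ (b : ℝ) ≤ x ∧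
          (∀ m : ℕ, (∃ p : ℕ, p.Prime ∧ ξ p w = m) → ¬ (a < m ∧ m < b)) ∧
          (const ω t θ δ - ε) * (Real.log x) ^ 2 ≤ (b : ℝ) - a) ∧
    (∃ θ : ℝ, 0 < θ ∧ θ < 1 ∧ ∃ δ₀ : ℝ, δ₀ < 1 ∧ ∀ δ : ℝ, δ₀ < δ → δ ≤ 1 → 1 < const ω t θ δ) := by
  refine ⟨Pool.Agent.R529.BU.om, ⟨Pool.Agent.R529.BU.om_cont.continuousOn, Pool.Agent.R529.BU.om_one_two,
    Pool.Agent.R529.BU.om_two⟩, fun t ht => ?_⟩
  have hconst : ∀ θ δ : ℝ, const Pool.Agent.R529.BU.om t θ δ =
      1 / (Real.log (1 / δ) * Pool.Agent.R529.BU.ww 2 θ + δ * Pool.Agent.R529.BU.ww t θ) := by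
    intro θ δ
    unfold const Pool.Agent.R529.BU.ww
    congr 1
    ring
  constructor
  · intro W hW δ hδ0 hδ1 Ω _ μ _ ξ hξ hind p₀ hstay hmove θ hθ hθ1
    rw [hconst θ δ]
    exact Pool.Agent.R526.LM.moved μ hξ hind t ht W hW δ hδ0 hδ1 p₀
      (fun p hp hp0 => ⟨hstay p hp hp0, hmove p hp hp0⟩) θ hθ hθ1
  · obtain ⟨θ, hθ, hθ1, δ₀, hδ₀, h⟩ := Pool.Agent.R526.LM.const_gt t ht
    refine ⟨θ, hθ, hθ1, δ₀, hδ₀, fun δ h1 h2 => ?_⟩
    rw [hconst θ δ]
    exact h δ h1 h2

end Pool.Agent.Results.MP_b0c12c_nt.LocallyMovedPrimes
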