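import Pool.Agent.R526.AA.Seq2

/-!
In the sequence of gaps between consecutive primes the gaps longer than lambda times the logarithm
occur with positive frequency near almost every index.
-/

set_option autoImplicit false

open Finset

namespace Pool.Agent.Results.MP_b0c12c_nt.LongGapsNearAlmostAllPrimes

open Classical in
/-- Write `p_0 = 2 < p_1 = 3 < ...` for the primes.  For all `lam > 0` and `ε > 0` there are `c > 0`
and `J₀` such that for every `J ≥ J₀` and all large `N`, all but at most `ε N` of the indices `j < N`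
are such that at least `c J` of the `J` consecutive gaps `p_(j+r+1) - p_(j+r)`, `r < J`, are larger
than `lam log p_(j+r)`. -/
theorem result (lam ε : ℝ) (hlam : 0 < lam) (hε : 0 < ε) :
    ∃ c : ℝ, 0 < c ∧ ∃ J₀ : ℕ, ∀ J : ℕ, J₀ ≤ J → ∃ N₀ : ℕ, ∀ N : ℕ, N₀ ≤ N →
      (((range N).filter (fun j =>
        (((range J).filter (fun r => lam * Real.log (Nat.nth Nat.Prime (j + r)) <
          (Nat.nth Nat.Prime (j + r + 1) : ℝ) - Nat.nth Nat.Prime (j + r))).card : ℝ) <
            c * J)).card : ℝ) ≤ ε * N :=
  Pool.Agent.R526.AA.sequence_gaps lam ε hlam hε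

end Pool.Agent.Results.MP_b0c12c_nt.LongGapsNearAlmostAllPrimes
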