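import Pool.Agent.R502.LG.Final

set_option autoImplicit false

/-! # Long prime gaps near almost all the terms of sparse sequences

Let `f` be a superlinear sum of terms `a t ^ x (log t) ^ y` which is not a polynomial up to terms of
order at most zero (for instance `t ^ (3/2)`, `t log t`, `t ^ 2 + √t`), or a real polynomial of
degree at least two with an irrational coefficient of positive degree and no Liouville coefficient
of positive degree.  For every `λ` and every `δ > 0` the intervals of length `λ log n` all of whose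
integers have a prime factor at most `n ^ δ` (in particular the prime gaps longer than `λ log n`)
have a positive local frequency at distance `O(log n)` behind `⌊f n⌋`, for almost all `n`, also in
short intervals of `n`.  The third part is a criterion: it is enough that the sequence has a power
level of distribution, however small.

Proof: the Selberg type weights for blocks of `Pool/Agent/R526/AA` (`almost`, which is stated for
arbitrary well distributed sets), the exponential sums of `Pool/Agent/TH915/PW` and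
`Pool/Agent/Y719/LP`, and an average over translates of the sequence. -/

namespace Pool.Agent.Results.MP_b0c12c_nt.LongGapsNearSparseSequences

open Filter

/-- Among the `K` consecutive blocks `(n + j l, n + (j + 1) l]`, `j < K`, of length `l` after `n`,
the number of those all of whose integers have a prime factor at most `z`. -/
noncomputable def freeBlocks (z : ℝ) (l K n : ℕ) : ℕ := by
  classical
  exact ((Finset.range K).filter (fun j => ∀ m ∈ Finset.Ioc (n + j * l) (n + (j + 1) * l),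
    ∃ p : ℕ, p.Prime ∧ (p : ℝ) ≤ z ∧ p ∣ m)).card

/-- The number of `n ∈ (N, N + L]` such that fewer than `c K` of the `K` blocks of length `l` after
`⌊f n⌋` consist of integers with a prime factor at most `z`. -/
noncomputable def exceptions (f : ℝ → ℝ) (z : ℝ) (l K N L : ℕ) (c : ℝ) : ℕ :=
  ((Finset.Ioc N (N + L)).filter (fun n : ℕ => (freeBlocks z l K ⌊f n⌋₊ : ℝ) < c * K)).card

theorem result :
    (∀ (F : Finset (ℝ × ℝ)) (a : ℝ × ℝ → ℝ),
      Tendsto (fun t : ℝ => (∑ z ∈ F, a z * t ^ z.1 * (Real.log t) ^ z.2) / t) atTop atTop →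
      (∃ z ∈ F, a z ≠ 0 ∧ 0 < z.1 ∧ ((∀ m : ℕ, z.1 ≠ m) ∨ z.2 ≠ 0)) →
      ∃ δ₀ : ℝ, 0 < δ₀ ∧ ∀ δ lam ε : ℝ, 0 < δ → 0 < lam → 0 < ε →
        ∃ c : ℝ, 0 < c ∧ ∃ K₀ : ℕ, ∀ K : ℕ, K₀ ≤ K → ∃ N₀ : ℕ, ∀ N L : ℕ, N₀ ≤ N →
          (N : ℝ) ^ (1 - δ₀) ≤ L → L ≤ N →
          (exceptions (fun t => ∑ z ∈ F, a z * t ^ z.1 * (Real.log t) ^ z.2) ((N : ℝ) ^ δ)
            ⌈lam * Real.log N⌉₊ K N L c : ℝ) ≤ ε * L) ∧
    (∀ f : Polynomial ℝ, 0 < f.leadingCoeff → 2 ≤ f.natDegree →
      (∃ i, 1 ≤ i ∧ Irrational (f.coeff i)) → (∀ i, 1 ≤ i → ¬ Liouville (f.coeff i)) →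
      ∀ θ δ lam ε : ℝ, 0 < θ → 0 < δ → 0 < lam → 0 < ε →
        ∃ c : ℝ, 0 < c ∧ ∃ K₀ : ℕ, ∀ K : ℕ, K₀ ≤ K → ∃ N₀ : ℕ, ∀ N L : ℕ, N₀ ≤ N →
          (N : ℝ) ^ θ ≤ L → L ≤ N →
          (exceptions (fun t => f.eval t) ((N : ℝ) ^ δ) ⌈lam * Real.log N⌉₊ K N L c : ℝ) ≤
            ε * L) ∧
    (∀ η D δ lam ε : ℝ, 0 < η → 0 < D → 0 < δ → 0 < lam → 0 < ε →
      ∃ c : ℝ, 0 < c ∧ ∃ K₀ : ℕ, ∀ K : ℕ, K₀ ≤ K → ∃ M₀ : ℝ, ∀ M : ℝ, M₀ ≤ M →
        ∀ S : Finset ℕ, (∀ n ∈ S, (n : ℝ) ≤ M ^ D) →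
        (∀ q : ℕ, 1 ≤ q → (q : ℝ) ≤ M ^ η → ∀ r : ℕ,
          |((S.filter (fun n => n ≡ r [MOD q])).card : ℝ) - (S.card : ℝ) / q| ≤
            S.card * M ^ (-η)) →
        ((S.filter (fun n => (freeBlocks (M ^ δ) ⌈lam * Real.log M⌉₊ K n : ℝ) < c * K)).card : ℝ) ≤
          ε * S.card) :=
  ⟨fun F a hsup hterm => Pool.Agent.R502.LG.final_logpow F a hsup hterm,
    fun f hlc hd h hL => Pool.Agent.R502.LG.final_poly f hlc hd h hL,
    fun η D δ lam ε hη hD hδ hlam hε =>
      Pool.Agent.R502.LG.final_crit η D δ lam ε hη hD hδ hlam hε⟩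

end Pool.Agent.Results.MP_b0c12c_nt.LongGapsNearSparseSequences
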