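import Pool.Agent.R526.SH.Fin

set_option autoImplicit false

/-!
# Cramér's conjecture fails for the locally shuffled primes

Author: helper526.

Cut the integers into blocks `(b_k, b_(k+1)]` of length `~ c (log b_k)²`, keep the true number of primes of every
block, and put them in random positions: `S_k` is a uniformly random subset of the block with as many elements as
there are primes in the block, and the `S_k` are independent. The random set `𝒮 = ⋃ S_k` has, at all the scales
`≥ (log x)²`, exactly the distribution of the primes. Almost surely, for every `ε > 0` and all large `x` there are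
consecutive elements `a < a' ≤ x` of `𝒮` with
`a' - a ≥ (c (1 - exp(- 2 e^{-γ} / c)) - ε) (log x)²`.
For `c ≥ 6` the constant is larger than `1.01` (and it tends to Granville's `2 e^{-γ} = 1.1229…` for `c → ∞`): so
almost surely `limsup (a' - a) / (log a)² > 1`, and even `liminf G_𝒮(x) / (log x)² > 1`. In other words: the
fluctuations of the primes at the single scale `c (log x)²` (`c ≥ 6`), which are a theorem, contradict `L = 1`,
unless the primes inside these blocks are distributed in a non random way.

Proof. By Maier's matrix method (starting files, helper510: `Maier.G.few_freq`) and a pigeonhole argument there are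
`x^(1 - 2η)` blocks up to `x` which contain at most `κ log x` primes, for any `κ > c e^γ / 2`. The random set misses
the initial part of length `τ (log x)²` of such a block with probability about `(1 - τ / c)^(κ log x)`; the blocks
are independent; lemma of Borel and Cantelli along the powers of `2`.
-/

open MeasureTheory ProbabilityTheory Filter Topology

/-- Let `b` be strictly increasing with `(b (k+1) - b k) / (log (b k))² → c > 0`, let `N k` be the number of primes
in the block `(b k, b (k+1)]` and let `S k` be independent random finite sets, `S k` being uniformly distributed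
on the subsets of size `N k` of the block. Almost surely, for every `ε > 0` and all large `x` there are consecutive
elements `a < a' ≤ x` of `⋃ S k` with `a' - a ≥ (c (1 - exp(- 2 e^{-γ} / c)) - ε) (log x)²`; and this constant is
larger than `1.01` if `c ≥ 6`. -/
theorem Pool.Agent.Results.MP_b0c12c_nt.ShuffledPrimes.result
    (b : ℕ → ℕ) (hb : StrictMono b) (c : ℝ) (hc : 0 < c)
    (hlen : Tendsto (fun k => ((b (k + 1) : ℝ) - b k) / (Real.log (b k)) ^ 2) atTop (𝓝 c))
    (N : ℕ → ℕ) (hN : ∀ k, N k = ((Finset.Ioc (b k) (b (k + 1))).filter Nat.Prime).card)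
    {Ω : Type} [MeasurableSpace Ω] (μ : Measure Ω) [IsProbabilityMeasure μ]
    [MeasurableSpace (Finset ℕ)] [DiscreteMeasurableSpace (Finset ℕ)]
    (S : ℕ → Ω → Finset ℕ) (hS : ∀ k, Measurable (S k)) (hind : iIndepFun S μ)
    (hunif : ∀ k, ∀ T ∈ (Finset.Ioc (b k) (b (k + 1))).powersetCard (N k),
      μ.real {ω | S k ω = T} = 1 / ((b (k + 1) - b k).choose (N k) : ℝ)) :
    (∀ᵐ ω ∂μ, ∀ ε : ℝ, 0 < ε → ∀ᶠ x : ℝ in atTop, ∃ a a' : ℕ,
      (∃ k, a ∈ S k ω) ∧ (∃ k, a' ∈ S k ω) ∧ a < a' ∧ (a' : ℝ) ≤ x ∧
      (∀ p : ℕ, (∃ k, p ∈ S k ω) → ¬ (a < p ∧ p < a')) ∧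
      (c * (1 - Real.exp (-(2 * Real.exp (-Real.eulerMascheroniConstant)) / c)) - ε) *
        (Real.log x) ^ 2 ≤ (a' : ℝ) - a) ∧
    (6 ≤ c → 1.01 < c * (1 - Real.exp (-(2 * Real.exp (-Real.eulerMascheroniConstant)) / c))) := by
  refine ⟨?_, Pool.Agent.R526.SH.const_gt c⟩
  have hNp : ∀ k, N k = Pool.Agent.R526.SH.Np b k := by
    intro k
    rw [hN k]
    unfold Pool.Agent.R526.SH.Np
    congr
  refine Pool.Agent.R526.SH.shuffled μ b hb c hc hlen S hS hind ?_
  intro k T hT
  rw [← hNp k] at hT ⊢
  exact hunif k T hT
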